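import Pool.Agent.FGT.Stmts

/-!
Squad FGT, row INM: invariant finitely additive probabilities.
-/

set_option autoImplicit false

namespace Pool.Agent.FGT.H47

open Filter Topology Pool.Agent.H22.CIG Pool.Agent.H67.CIP Pool.Agent.H50.CIG MeasureTheory

universe u v

open scoped Pointwise

theorem continuous_smul' {X : Type v} [TopologicalSpace X] {T : X ≃ₜ X} {L : Type u} [Group L]
    [MulAction L X] (p : Piece T L) (g : L) : Continuous fun x : X => g • x := by
  rw [continuous_iff_continuousAt]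
  intro x
  have h1 : ∀ᶠ y in 𝓝 x, p.n g y = p.n g x :=
    (p.cont g).continuousAt.eventually_mem ((isOpen_discrete ({p.n g x} : Set ℤ)).mem_nhds rfl)
  have h2 : (fun y : X => g • y) =ᶠ[𝓝 x] fun y => (T ^ p.n g x) y := by
    filter_upwards [h1] with y hy
    rw [p.eq g y, hy]
  exact ((T ^ p.n g x).continuous.continuousAt).congr h2.symm

theorem isPiSystem_clopen (X : Type v) [TopologicalSpace X] :
    IsPiSystem {s : Set X | IsClopen s} := fun _ hs _ ht _ => hs.inter ht

theorem inm (hEXT : ExtStmt.{v}) (hRES : ResStmt.{u, v}) (hTAV : TavStmt.{u, v})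
    (hTHA : ThaStmt.{u, v}) : InmStmt.{u, v} := by
  intro X _ _ T L _ _ p hgood m hm δ hδ
  by_contra hcon
  push Not at hcon
  let _ : MeasurableSpace X := MeasurableSpace.generateFrom {s : Set X | IsClopen s}
  have hclo : ∀ s : Set X, IsClopen s → MeasurableSet s :=
    fun s hs => MeasurableSpace.measurableSet_generateFrom hs
  have hmeas : ∀ f : X → X, Continuous f → Measurable f := by
    intro f hf
    apply measurable_generateFrom
    intro t ht
    exact hclo _ (IsClopen.preimage ht hf)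
  obtain ⟨ν, hν⟩ := hEXT X m.m (fun A _ => m.nonneg A) (fun A B _ _ h => m.add A B h)
  have hν1 : ν Set.univ = 1 := by
    rw [hν _ isClopen_univ, m.univ, ENNReal.ofReal_one]
  have hfin : IsFiniteMeasure ν := ⟨by rw [hν1]; exact ENNReal.one_lt_top⟩
  have hinv : ∀ g : L, MeasurePreserving (fun x : X => g • x) ν ν := by
    intro g
    have hg := hmeas _ (continuous_smul' p g)
    refine ⟨hg, ?_⟩
    have hfin2 : IsFiniteMeasure (ν.map fun x : X => g • x) := Measure.isFiniteMeasure_map _ _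
    refine ext_of_generate_finite {s : Set X | IsClopen s} rfl (isPiSystem_clopen X) ?_ ?_
    · intro s hs
      rw [Measure.map_apply hg (hclo s hs), hν s hs,
        hν _ (IsClopen.preimage hs (continuous_smul' p g))]
      congr 1
      exact hm g s
    · rw [Measure.map_apply hg MeasurableSet.univ, Set.preimage_univ]
  have h1 := hRES X T L p ν hgood.inf hgood.fg hgood.fcen hclo hinv (ENNReal.ofReal δ) (by
    intro a ha
    have hc : IsClopen {x : X | a • x ≠ x} := by
      have h1 : {x : X | a • x ≠ x} = p.n a ⁻¹' ({0}ᶜ : Set ℤ) := by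
        ext x
        show ¬ (a • x = x) ↔ ¬ (p.n a x = 0)
        rw [p.eq_zero_iff]
      rw [h1]
      exact (isClopen_discrete _).preimage (p.cont a)
    rw [hν _ hc]
    exact ENNReal.ofReal_le_ofReal (hcon a ha))
  obtain ⟨μ, c, hμfin, hc, hTμ, hdom⟩ := hTAV X T L p ν hgood.fg rfl hinv
  have h2 : ∀ a : L, a ≠ 1 → ENNReal.ofReal δ ≤ 2 * (c * μ {x : X | a • x ≠ x}) := by
    intro a ha
    refine (h1 a ha).trans ?_
    gcongr
    apply hdom
    have h3 : {x : X | a • x ≠ x} = p.n a ⁻¹' ({0}ᶜ : Set ℤ) := by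
      ext x
      show ¬ (a • x = x) ↔ ¬ (p.n a x = 0)
      rw [p.eq_zero_iff]
    rw [h3]
    exact (isClopen_discrete _).preimage (p.cont a)
  have hδ' : ENNReal.ofReal δ ≠ 0 := by
    rw [Ne, ENNReal.ofReal_eq_zero]
    exact not_le.mpr hδ
  have hinf := hgood.inf
  obtain ⟨a₀, ha₀⟩ := exists_ne (1 : L)
  have hU : μ Set.univ ≠ 0 := by
    intro h
    have h3 : μ {x : X | a₀ • x ≠ x} = 0 := measure_mono_null (Set.subset_univ _) h
    have h4 := h2 a₀ ha₀
    rw [h3, mul_zero, mul_zero] at h4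
    exact hδ' (le_antisymm h4 bot_le)
  have hUt : μ Set.univ ≠ ⊤ := measure_ne_top μ _
  have hprob : IsProbabilityMeasure ((μ Set.univ)⁻¹ • μ) := by
    refine ⟨?_⟩
    rw [Measure.smul_apply, smul_eq_mul, ENNReal.inv_mul_cancel hU hUt]
  have hs : 0 < ENNReal.ofReal δ / (2 * c * μ Set.univ) := by
    refine ENNReal.div_pos hδ' ?_
    exact ENNReal.mul_ne_top (ENNReal.mul_ne_top (by norm_num) hc) hUt
  obtain ⟨a, ha, hlt⟩ := hTHA X T L p ((μ Set.univ)⁻¹ • μ) hgood hclo (hTμ.smul_measure _)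
    (hmeas _ T.symm.continuous) _ hs
  have h3 := ENNReal.mul_lt_of_lt_div hlt
  rw [Measure.smul_apply, smul_eq_mul] at h3
  have h4 : (μ Set.univ)⁻¹ * μ {x : X | a • x ≠ x} * (2 * c * μ Set.univ) =
      2 * (c * μ {x : X | a • x ≠ x}) := by
    calc (μ Set.univ)⁻¹ * μ {x : X | a • x ≠ x} * (2 * c * μ Set.univ)
        = ((μ Set.univ)⁻¹ * μ Set.univ) * (2 * (c * μ {x : X | a • x ≠ x})) := by ring
      _ = _ := by rw [ENNReal.inv_mul_cancel hU hUt, one_mul]
  rw [h4] at h3
  exact absurd (h2 a ha) (not_le.mpr h3)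

end Pool.Agent.FGT.H47
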