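import Pool.Agent.FGT.Stmts

/-!
Squad FGT, row RES: restriction to the infinite orbits.
-/

set_option autoImplicit false

namespace Pool.Agent.FGT.H47

open Filter Topology Pool.Agent.H22.CIG Pool.Agent.H67.CIP Pool.Agent.H50.CIG MeasureTheory

universe u v

open scoped Pointwise

/-- the support is clopen -/
theorem isClopen_supp {X : Type v} [TopologicalSpace X] {T : X ≃ₜ X} {L : Type u} [Group L]
    [MulAction L X] (p : Piece T L) (a : L) : IsClopen {x : X | a • x ≠ x} := by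
  have h1 : {x : X | a • x ≠ x} = p.n a ⁻¹' ({0}ᶜ : Set ℤ) := by
    ext x
    show ¬ (a • x = x) ↔ ¬ (p.n a x = 0)
    rw [p.eq_zero_iff]
  rw [h1]
  exact (isClopen_discrete _).preimage (p.cont a)

/-- the orbits of the points of one orbit have the same size -/
theorem mem_WX_smul {X : Type v} [TopologicalSpace X] {T : X ≃ₜ X} {L : Type u} [Group L]
    [MulAction L X] (p : Piece T L) (n : ℕ) (g : L) (x : X) :
    g • x ∈ WX p (⊤ : Subgroup L) n ↔ x ∈ WX p (⊤ : Subgroup L) n := by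
  show (orb (alp p (g • x)) ⊤ 0).encard ≤ n ↔ (orb (alp p x) ⊤ 0).encard ≤ n
  have h1 : g • x = (T ^ (alp p x g 0)) x := (alp_zero p x g).symm
  have h2 := orb_shift p x (alp p x g 0) (⊤ : Subgroup L) 0
  rw [zero_add, ← h1] at h2
  have h3 : orb (alp p x) (⊤ : Subgroup L) (alp p x g 0) = orb (alp p x) (⊤ : Subgroup L) 0 := by
    ext j
    constructor
    · rintro ⟨h, -, hh⟩
      refine ⟨h * g, Subgroup.mem_top _, ?_⟩
      rw [map_mul]
      exact hh
    · rintro ⟨h, -, hh⟩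
      refine ⟨h * g⁻¹, Subgroup.mem_top _, ?_⟩
      have h4 : (alp p x g)⁻¹ (alp p x g 0) = 0 := (alp p x g).symm_apply_apply 0
      rw [map_mul, map_inv, Equiv.Perm.mul_apply, h4]
      exact hh
  rw [h3] at h2
  rw [h2, (add_left_injective (alp p x g 0)).encard_image]

/-- some conjugate of `a` does not commute with `v` -/
theorem exists_conj {L : Type u} [Group L] (hinf : Infinite L) (hf : FCen L) {a v : L}
    (ha : a ≠ 1) (hv : v ≠ 1) : ∃ g : L, (g⁻¹ * a * g) * v ≠ v * (g⁻¹ * a * g) := by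
  by_contra hcon
  push Not at hcon
  have h1 : (Set.univ : Set L) ⊆ ⋃ c ∈ {h : L | h * v = v * h}, {g : L | g⁻¹ * a * g = c} := by
    intro g _
    exact Set.mem_iUnion₂.mpr ⟨g⁻¹ * a * g, hcon g, rfl⟩
  have h2 : ∀ c : L, {g : L | g⁻¹ * a * g = c}.Finite := by
    intro c
    by_cases hne : ({g : L | g⁻¹ * a * g = c}).Nonempty
    · obtain ⟨g₀, hg₀⟩ := hne
      have h3 : {g : L | g⁻¹ * a * g = c} ⊆ (fun h : L => h * g₀) '' {h : L | h * a = a * h} := by
        intro g hg
        refine ⟨g * g₀⁻¹, ?_, by group⟩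
        have e1 : g⁻¹ * a * g = g₀⁻¹ * a * g₀ := hg.trans (Eq.symm hg₀)
        show g * g₀⁻¹ * a = a * (g * g₀⁻¹)
        have e2 : g * (g⁻¹ * a * g) * g₀⁻¹ = g * (g₀⁻¹ * a * g₀) * g₀⁻¹ := by rw [e1]
        calc g * g₀⁻¹ * a = g * (g₀⁻¹ * a * g₀) * g₀⁻¹ := by group
          _ = g * (g⁻¹ * a * g) * g₀⁻¹ := e2.symm
          _ = a * (g * g₀⁻¹) := by group
      exact ((hf a ha).image _).subset h3
    · rw [Set.not_nonempty_iff_eq_empty.mp hne]
      exact Set.finite_empty
  have h3 : (Set.univ : Set L).Finite :=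
    ((hf v hv).biUnion fun c _ => h2 c).subset h1
  exact Set.infinite_univ h3

theorem res (hMIX : MixStmt.{u, v}) : ResStmt.{u, v} := by
  intro X _ _ _ T L _ _ p ν _ hinf hfg hf hclo hinv δ hδ a ha
  obtain ⟨hW, hI, -, hN⟩ := hMIX X T L p (⊤ : Subgroup L) (Group.fg_def.mp hfg)
  have hmW : ∀ n, MeasurableSet (WX p (⊤ : Subgroup L) n) := fun n => hclo _ (hW n)
  have hms : ∀ g : L, MeasurableSet {x : X | g • x ≠ x} := fun g => hclo _ (isClopen_supp p g)
  -- one level
  have key : ∀ n : ℕ, δ ≤ 2 * ν ({x : X | a • x ≠ x} \ WX p (⊤ : Subgroup L) n) := by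
    intro n
    obtain ⟨N, -, hidx, hfix⟩ := hN n
    rw [Subgroup.relIndex_top_right] at hidx
    have : N.FiniteIndex := ⟨hidx⟩
    have : N.normalCore.FiniteIndex := inferInstance
    have hinfN : Infinite N.normalCore := by
      by_contra hfin
      rw [not_infinite_iff_finite] at hfin
      have h1 : Finite L := by
        have h2 := Subgroup.card_mul_index N.normalCore
        apply Nat.finite_of_card_ne_zero
        rw [← h2]
        exact mul_ne_zero Nat.card_pos.ne' Subgroup.FiniteIndex.index_ne_zero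
      exact not_finite L
    obtain ⟨⟨v, hvN⟩, hv⟩ := exists_ne (1 : N.normalCore)
    have hv1 : v ≠ 1 := fun h => hv (Subtype.ext h)
    obtain ⟨g, hg⟩ := exists_conj hinf hf ha hv1
    set u : L := g⁻¹ * a * g with hu
    set b : L := u * v * u⁻¹ * v⁻¹ with hb
    have hb1 : b ≠ 1 := by
      intro h
      apply hg
      have e : u * v = (u * v * u⁻¹ * v⁻¹) * (v * u) := by group
      rw [e, ← hb, h, one_mul]
    have hbN : b ∈ N := by
      apply Subgroup.normalCore_le N
      exact mul_mem (Subgroup.Normal.conj_mem inferInstance v hvN u) (inv_mem hvN)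
    set E : Set X := {x : X | u • x ≠ x} \ WX p (⊤ : Subgroup L) n with hE
    have hEm : MeasurableSet E := (hms u).diff (hmW n)
    have h1 : {x : X | b • x ≠ x} ⊆ E ∪ (fun x : X => v⁻¹ • x) ⁻¹' E := by
      intro x hx
      have hxW : x ∉ WX p (⊤ : Subgroup L) n := fun h => hx (hfix b hbN x h)
      by_cases h2 : u • x = x
      · right
        refine ⟨fun h3 => ?_, fun h3 => hxW ((mem_WX_smul p n v⁻¹ x).mp h3)⟩
        apply hx
        show (u * v * u⁻¹ * v⁻¹) • x = x
        have h4 : u⁻¹ • v⁻¹ • x = v⁻¹ • x := by rw [inv_smul_eq_iff, h3]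
        rw [mul_smul, mul_smul, mul_smul, h4, smul_inv_smul, h2]
      · left
        exact ⟨h2, hxW⟩
    have h2 : ν E = ν ({x : X | a • x ≠ x} \ WX p (⊤ : Subgroup L) n) := by
      have h3 : E = (fun x : X => g • x) ⁻¹' ({x : X | a • x ≠ x} \ WX p (⊤ : Subgroup L) n) := by
        ext x
        have h4 : u • x ≠ x ↔ a • g • x ≠ g • x := supp_conj a g x
        show (u • x ≠ x ∧ x ∉ WX p (⊤ : Subgroup L) n) ↔
          (a • g • x ≠ g • x ∧ g • x ∉ WX p (⊤ : Subgroup L) n)
        rw [h4, mem_WX_smul p n g x]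
      rw [h3, (hinv g).measure_preimage ((hms a).diff (hmW n)).nullMeasurableSet]
    calc δ ≤ ν {x : X | b • x ≠ x} := hδ b hb1
      _ ≤ ν (E ∪ (fun x : X => v⁻¹ • x) ⁻¹' E) := measure_mono h1
      _ ≤ ν E + ν ((fun x : X => v⁻¹ • x) ⁻¹' E) := measure_union_le _ _
      _ = 2 * ν E := by rw [(hinv v⁻¹).measure_preimage hEm.nullMeasurableSet, two_mul]
      _ = _ := by rw [h2]
  -- the limit
  have hdec : Antitone fun n : ℕ => {x : X | a • x ≠ x} \ WX p (⊤ : Subgroup L) n := by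
    intro m n hmn x hx
    refine ⟨hx.1, fun h => hx.2 ?_⟩
    have h2 : (orb (alp p x) ⊤ 0).encard ≤ m := h
    exact h2.trans (by exact_mod_cast hmn)
  have hint : ⋂ n : ℕ, ({x : X | a • x ≠ x} \ WX p (⊤ : Subgroup L) n) =
      {x : X | a • x ≠ x} ∩ IX p (⊤ : Subgroup L) := by
    have h1 : IX p (⊤ : Subgroup L) = (⋃ n : ℕ, WX p (⊤ : Subgroup L) n)ᶜ := by
      rw [← hI, compl_compl]
    rw [h1]
    ext x
    simp only [Set.mem_iInter, Set.mem_sdiff, Set.mem_inter_iff, Set.mem_compl_iff, Set.mem_iUnion,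
      not_exists]
    constructor
    · intro h
      exact ⟨(h 0).1, fun n => (h n).2⟩
    · intro h n
      exact ⟨h.1, h.2 n⟩
  have hlim := tendsto_measure_iInter_atTop (μ := ν)
    (s := fun n : ℕ => {x : X | a • x ≠ x} \ WX p (⊤ : Subgroup L) n)
    (fun n => ((hms a).diff (hmW n)).nullMeasurableSet) hdec ⟨0, measure_ne_top _ _⟩
  rw [hint] at hlim
  have hlim2 : Tendsto (fun n : ℕ => 2 * ν ({x : X | a • x ≠ x} \ WX p (⊤ : Subgroup L) n)) atTop
      (𝓝 (2 * ν ({x : X | a • x ≠ x} ∩ IX p (⊤ : Subgroup L)))) :=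
    ENNReal.Tendsto.const_mul hlim (Or.inr (by norm_num))
  exact ge_of_tendsto' hlim2 key

end Pool.Agent.FGT.H47
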